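import Pool.Agent.W5h48.AL.LimG

/-!
# MP_ae5b4e_an: leaves with projective tangent involutions accumulating at a closed leaf

The foliation is given by a first integral: its leaves are the level curves of a smooth function
`F` without critical points, defined on an open set `W ⊆ ℝ²` (an affine chart) which contains the
closed leaf `γ = range c`.  Call a leaf `{F = g}` good if the involution of the tangent line at each
of its points, which exchanges the two points of each leaf, is projective.  Assume that the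
values `g` of the good leaves accumulate at the value of `F` on `γ` (for instance, a sequence of
good leaves on the exterior side converges to `γ`); nothing is assumed about the other leaves.

Conclusion: `γ` is an ellipse `Q₁ = 0`, and there is a pencil of conics, spanned by `Q₁` and a
form `Q₂` positive on `γ`, whose contact with the foliation is of infinite order along `γ`: the
derivative of `Q₁ / Q₂` along the leaves, multiplied by `Q₂ ^ 2`, vanishes on `γ` together with all
its partial derivatives.  If `F` is real analytic, all closed leaves near `γ` are ellipses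
of this pencil.
-/

set_option autoImplicit false

open Filter Topology Set
open scoped ContDiff Matrix

namespace Pool.Agent.Results.MP_ae5b4e_an.AccumulatingLeaves

/-- the tangent vector `(F_y, -F_x)` of the level curve of `F` through `p` -/
noncomputable def tangent (F : ℝ × ℝ → ℝ) (p : ℝ × ℝ) : ℝ × ℝ :=
  (fderiv ℝ F p (0, 1), -fderiv ℝ F p (1, 0))

/-- The involution `σ_p` of the tangent line at `p` of the leaf through `p`, which exchanges the two
points of each leaf near `p`, is projective: if the points `p + x • τ` and `p - y • τ`,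
`τ = tangent F p`, `x, y > 0` small, lie on the same leaf, then `1 / x - 1 / y` has a value `κ`
which does not depend on the leaf (`σ_p` is `s ↦ -s / (1 - κ s)`; these are exactly the projective
involutions which fix `p` and exchange the two sides of `p`). -/
def ProjectiveInvolution (F : ℝ × ℝ → ℝ) (p : ℝ × ℝ) : Prop :=
  ∃ κ ε : ℝ, 0 < ε ∧ ∀ x y : ℝ, 0 < x → x < ε → 0 < y → y < ε →
    F (p + x • tangent F p) = F (p - y • tangent F p) → 1 / x - 1 / y = κ

/-- `c` is a (periodically parametrized, regular) closed leaf contained in `S` -/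
structure ClosedLeaf (F : ℝ × ℝ → ℝ) (S : Set (ℝ × ℝ)) (c : ℝ → ℝ × ℝ) : Prop where
  differentiable : Differentiable ℝ c
  regular : ∀ t, deriv c t ≠ 0
  periodic : ∃ T : ℝ, 0 < T ∧ Function.Periodic c T
  mem : ∀ t, c t ∈ S
  level : ∀ t, F (c t) = F (c 0)

/-- the value at `(x, y, 1)` of the quadratic form with the matrix `Q`; its zeros are the points of
the conic `Q` in the affine chart -/
def conic (Q : Matrix (Fin 3) (Fin 3) ℝ) (p : ℝ × ℝ) : ℝ :=
  ![p.1, p.2, 1] ⬝ᵥ Q *ᵥ ![p.1, p.2, 1]

/-- an ellipse in the affine plane, that is, an affine image of the unit circle -/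
def IsEllipse (S : Set (ℝ × ℝ)) : Prop :=
  ∃ m u v : ℝ × ℝ, u.1 * v.2 - u.2 * v.1 ≠ 0 ∧
    S = range fun θ : ℝ => m + Real.cos θ • u + Real.sin θ • v

/-- the derivative of `Q₁ / Q₂` in the direction `tangent F p` of the leaf, multiplied by `Q₂ ^ 2`;
it is zero where the leaf of `F` and the conic of the pencil spanned by `Q₁`, `Q₂` are tangent -/
noncomputable def defect (F : ℝ × ℝ → ℝ) (Q₁ Q₂ : Matrix (Fin 3) (Fin 3) ℝ) (p : ℝ × ℝ) : ℝ :=
  conic Q₂ p * fderiv ℝ (conic Q₁) p (tangent F p) -
    conic Q₁ p * fderiv ℝ (conic Q₂) p (tangent F p)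

theorem conic_eq (Q : Matrix (Fin 3) (Fin 3) ℝ) : Pool.Agent.W5h48.AL.cq Q = conic Q := by
  funext p
  unfold Pool.Agent.W5h48.AL.cq Pool.Agent.W5h48.AL.form conic
  simp only [Matrix.mulVec, dotProduct, Fin.sum_univ_three]
  ring

theorem defect_eq (F : ℝ × ℝ → ℝ) (Q₁ Q₂ : Matrix (Fin 3) (Fin 3) ℝ) :
    Pool.Agent.W5h48.AL.wdg F Q₁ Q₂ = defect F Q₁ Q₂ := by
  funext p
  unfold Pool.Agent.W5h48.AL.wdg defect
  rw [conic_eq, conic_eq]
  rfl

/-- **Theorem.** Let `F` be a smooth function without critical points on an open set `W`, let `c` be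
a closed leaf (closed level curve of `F`) in `W`, and let `G` be a set of real numbers which
accumulates at the value of `F` on `c`, such that for every `p ∈ W` with `F p ∈ G` the
involution of the tangent line at `p` of the leaf through `p`, which exchanges the two points of
each leaf, is projective.  Then there are quadratic forms `Q₁`, `Q₂` such that

* the leaf `c` is an ellipse, the set of all (affine) points of the nondegenerate conic `Q₁`;
* `Q₂ > 0` on `c`, and the derivative of `Q₁ / Q₂` along the leaves vanishes to infinite order at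
  every point of `c`: the pencil of conics spanned by `Q₁` and `Q₂` and the foliation have
  contact of infinite order along `c`;
* if `F` is real analytic on `W`, all closed leaves in a neighbourhood `N` of `c` are ellipses of
  this pencil (each is the set of all affine points of a nondegenerate conic `Q₁ - l Q₂`). -/
theorem result {F : ℝ × ℝ → ℝ} {W : Set (ℝ × ℝ)} (hW : IsOpen W) (hF : ContDiffOn ℝ ∞ F W)
    (hreg : ∀ p ∈ W, tangent F p ≠ 0) {c : ℝ → ℝ × ℝ} (hc : ClosedLeaf F W c) {G : Set ℝ}
    (hG : AccPt (F (c 0)) (𝓟 G)) (hproj : ∀ p ∈ W, F p ∈ G → ProjectiveInvolution F p) :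
    ∃ Q₁ Q₂ : Matrix (Fin 3) (Fin 3) ℝ, Q₁.IsSymm ∧ Q₂.IsSymm ∧
      (Q₁.det ≠ 0 ∧ IsEllipse (range c) ∧ range c = {p | conic Q₁ p = 0}) ∧
      ((∀ t, 0 < conic Q₂ (c t)) ∧ ∀ t n, iteratedFDeriv ℝ n (defect F Q₁ Q₂) (c t) = 0) ∧
      (ContDiffOn ℝ ω F W → ∃ N : Set (ℝ × ℝ), IsOpen N ∧ range c ⊆ N ∧ N ⊆ W ∧
        ∀ c' : ℝ → ℝ × ℝ, ClosedLeaf F N c' → ∃ l : ℝ, (Q₁ - l • Q₂).det ≠ 0 ∧
          IsEllipse (range c') ∧ range c' = {p | conic (Q₁ - l • Q₂) p = 0}) := by
  obtain ⟨Q₁, Q₂, h1, h2, h3, h4, h5, h6, h7⟩ := Pool.Agent.W5h48.AL.lim_main hW hF hreg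
    (c := c) ⟨hc.1, hc.2, hc.3, hc.4, hc.5⟩ hG hproj
  refine ⟨Q₁, Q₂, h1, h2, ⟨h3, h4, ?_⟩, ⟨fun t => ?_, fun t n => ?_⟩, fun hFa => ?_⟩
  · rw [← conic_eq]
    exact h5
  · rw [← conic_eq]
    exact h6 t
  · rw [← defect_eq]
    exact h7 t n
  · obtain ⟨N, g1, g2, g3, g4⟩ := Pool.Agent.W5h48.AL.lim_an hW hFa hreg (Γ := range c)
      (by rintro _ ⟨t, rfl⟩; exact hc.mem t) h1 h2 h3
      (by
        intro q hq
        rw [h5] at hq
        exact hq)
      (by rintro _ ⟨t, rfl⟩; exact h6 t) (by rintro _ ⟨t, rfl⟩ n; exact h7 t n)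
    refine ⟨N, g1, g2, g3, fun c' hc' => ?_⟩
    obtain ⟨l, k1, k2, k3⟩ := g4 c' ⟨hc'.1, hc'.2, hc'.3, hc'.4, hc'.5⟩
    refine ⟨l, k1, k2, ?_⟩
    rw [← conic_eq]
    exact k3

end Pool.Agent.Results.MP_ae5b4e_an.AccumulatingLeaves
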