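import Pool.Agent.W5h48.AL.Fin

/-!
# MP_ae5b4e_an: foliations all of whose tangent involutions are projective

The foliation is given by a first integral: its leaves are the level curves of a smooth function
`F` without critical points, defined on an open set `W ⊆ ℝ²` (an affine chart).  `U ⊆ W` is open
and connected (for instance the open annulus between the curve `γ` of the problem and a leaf on its
exterior side, `W` being a neighbourhood of the closed annulus).  For `p ∈ U` consider the tangent
line at `p` of the leaf through `p`, and the involution of a neighbourhood of `p` in this line which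
exchanges the two points of each leaf.  Assume that this involution is projective for every `p ∈ U`,
i.e. for the tangent lines of all leaves in `U`.

Conclusion: there is one pencil of conics such that the leaves in `U` lie on nondegenerate conics
of the pencil, and all closed leaves in `U` and on the boundary of `U` (such as `γ`) are ellipses
of the pencil.
-/

set_option autoImplicit false

open Filter Topology Set
open scoped ContDiff Matrix

namespace Pool.Agent.Results.MP_ae5b4e_an.AllLeaves

/-- the tangent vector `(F_y, -F_x)` of the level curve of `F` through `p` -/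
noncomputable def tangent (F : ℝ × ℝ → ℝ) (p : ℝ × ℝ) : ℝ × ℝ :=
  (fderiv ℝ F p (0, 1), -fderiv ℝ F p (1, 0))

/-- The involution `σ_p` of the tangent line at `p` of the leaf through `p`, which exchanges the two
points of each leaf near `p`, is projective: if the points `p + x • τ` and `p - y • τ`,
`τ = tangent F p`, `x, y > 0` small, lie on the same leaf, then `1 / x - 1 / y` has a value `κ`
which does not depend on the leaf (`σ_p` is `s ↦ -s / (1 - κ s)`; these are exactly the projective
involutions which fix `p` and exchange the two sides of `p`). -/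
def ProjectiveInvolution (F : ℝ × ℝ → ℝ) (p : ℝ × ℝ) : Prop :=
  ∃ κ ε : ℝ, 0 < ε ∧ ∀ x y : ℝ, 0 < x → x < ε → 0 < y → y < ε →
    F (p + x • tangent F p) = F (p - y • tangent F p) → 1 / x - 1 / y = κ

/-- `c` is a (periodically parametrized, regular) closed leaf contained in `S` -/
structure ClosedLeaf (F : ℝ × ℝ → ℝ) (S : Set (ℝ × ℝ)) (c : ℝ → ℝ × ℝ) : Prop where
  differentiable : Differentiable ℝ c
  regular : ∀ t, deriv c t ≠ 0
  periodic : ∃ T : ℝ, 0 < T ∧ Function.Periodic c T
  mem : ∀ t, c t ∈ S
  level : ∀ t, F (c t) = F (c 0)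

/-- the value at `(x, y, 1)` of the quadratic form with the matrix `Q`; its zeros are the points of
the conic `Q` in the affine chart -/
def conic (Q : Matrix (Fin 3) (Fin 3) ℝ) (p : ℝ × ℝ) : ℝ :=
  ![p.1, p.2, 1] ⬝ᵥ Q *ᵥ ![p.1, p.2, 1]

/-- an ellipse in the affine plane, that is, an affine image of the unit circle -/
def IsEllipse (S : Set (ℝ × ℝ)) : Prop :=
  ∃ m u v : ℝ × ℝ, u.1 * v.2 - u.2 * v.1 ≠ 0 ∧
    S = range fun θ : ℝ => m + Real.cos θ • u + Real.sin θ • v

theorem conic_eq (Q : Matrix (Fin 3) (Fin 3) ℝ) (p : ℝ × ℝ) :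
    Pool.Agent.W5h48.AL.form (fun i j => Q i j) ![p.1, p.2, 1] = conic Q p := by
  unfold Pool.Agent.W5h48.AL.form conic
  simp only [Matrix.mulVec, dotProduct, Fin.sum_univ_three]
  ring

/-- **Theorem.** Let `F` be a smooth function without critical points on an open set `W` and let
`U ⊆ W` be open and connected.  Suppose that for every `p ∈ U` the involution of the tangent line
at `p` of the leaf (level curve of `F`) through `p`, which exchanges the two points of each leaf, is
projective.  Then there is a pencil of conics, spanned by `Q₁` and `Q₂`, such that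

* every arc of a leaf in `U` lies on a nondegenerate conic of the pencil;
* every closed leaf contained in `W ∩ closure U` is an ellipse, and it is the set of all (affine)
  points of a nondegenerate conic of the pencil. -/
theorem result {F : ℝ × ℝ → ℝ} {W U : Set (ℝ × ℝ)} (hW : IsOpen W) (hU : IsOpen U) (hUW : U ⊆ W)
    (hUc : IsConnected U) (hF : ContDiffOn ℝ ∞ F W) (hreg : ∀ p ∈ W, tangent F p ≠ 0)
    (hproj : ∀ p ∈ U, ProjectiveInvolution F p) :
    ∃ Q₁ Q₂ : Matrix (Fin 3) (Fin 3) ℝ, Q₁.IsSymm ∧ Q₂.IsSymm ∧ LinearIndependent ℝ ![Q₁, Q₂] ∧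
      (∀ (I : Set ℝ) (c : ℝ → ℝ × ℝ), IsOpen I → IsPreconnected I → DifferentiableOn ℝ c I →
        (∀ t ∈ I, c t ∈ U) → (∀ s ∈ I, ∀ t ∈ I, F (c s) = F (c t)) →
        ∃ l₁ l₂ : ℝ, (l₁ • Q₁ + l₂ • Q₂).det ≠ 0 ∧
          ∀ t ∈ I, conic (l₁ • Q₁ + l₂ • Q₂) (c t) = 0) ∧
      ∀ c : ℝ → ℝ × ℝ, ClosedLeaf F (W ∩ closure U) c →
        ∃ l₁ l₂ : ℝ, (l₁ • Q₁ + l₂ • Q₂).det ≠ 0 ∧ IsEllipse (range c) ∧
          range c = {p | conic (l₁ • Q₁ + l₂ • Q₂) p = 0} := by
  obtain ⟨Q₁, Q₂, h1, h2, h3, h4, h5⟩ := Pool.Agent.W5h48.AL.main hW hU hUW hUc hF hreg hproj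
  refine ⟨Q₁, Q₂, h1, h2, h3, fun I c hI hIc hc hmem hlev => ?_, fun c hc => ?_⟩
  · obtain ⟨l₁, l₂, g1, g2⟩ := h4 I c hI hIc hc hmem hlev
    exact ⟨l₁, l₂, g1, fun t ht => by rw [← conic_eq]; exact g2 t ht⟩
  · obtain ⟨l₁, l₂, g1, g2, g3⟩ := h5 c ⟨hc.1, hc.2, hc.3, hc.4, hc.5⟩
    refine ⟨l₁, l₂, g1, g2, ?_⟩
    rw [g3]
    ext p
    rw [mem_ofPred_eq, mem_ofPred_eq, conic_eq]

end Pool.Agent.Results.MP_ae5b4e_an.AllLeaves
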