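import Pool.Agent.W5h40.Iso.Main

/-!
# MP_ae5b4e_an: foliations whose tangent maps commute

Points of `ℝP²` are given by homogeneous coordinates, vectors of `ℝ³ = Fin 3 → ℝ`. The curve `γ` is
given by a smooth `L`-periodic map `p : ℝ → ℝ³` with `det (p, p', p'') ≠ 0` (a closed curve without
inflection points and cusps; every smooth closed strictly convex curve of nonzero curvature has such
a lift). `OnTangent p s q`: the point `q` lies on the tangent line at `p s`.

The leaves `γ_c`, `c > 0` small, are described by their tangent maps `ψ c`: the leaf `γ_c` consists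
of the intersection points of the tangent lines at `p t` and at `p (ψ c t)`. (For a smooth foliation
of a one-sided neighbourhood of `γ` the second tangent line from the forward point of a leaf on the
tangent line at `p t` defines such a map `ψ c`, smooth in `(c, t)` if `c²` is a smooth parameter of
the leaves; `ψ 0 = id` and `∂ψ/∂c > 0` at `c = 0`.) On the tangent line at `p t` the leaf `γ_c` has
the forward point, which lies on the tangent line at `p (ψ c t)`, and the backward point, which lies
on the tangent line at `p s`, where `ψ c s = t`.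

`ProjectiveInvolutions p ψ` says that for every `t` the involution of the tangent line at `p t`,
which exchanges the two points of each leaf near `p t`, is projective: in the projective coordinate
`x` of the points `p t + x p' t` this means `1 / x - 1 / y = κ` for the points with the coordinates
`x` and `-y`.

Hypothesis: the tangent maps commute, `ψ c ∘ ψ d = ψ d ∘ ψ c`. (For instance `ψ c t = t + c` for an
arbitrary parametrization of `γ`: the leaves are the curves from which `γ` is seen under arcs of
constant measure, for an arbitrary smooth positive measure on `γ`, such as the isoptic curves.)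

Conclusion: `γ` is an ellipse, and the leaves are ellipses of one pencil, concentric circles in
suitable projective coordinates.
-/

set_option autoImplicit false

open scoped ContDiff

namespace Pool.Agent.Results.MP_ae5b4e_an.CommutingTangentMaps

/-- The point with homogeneous coordinates `q` lies on the tangent line of `γ` at `p s`. -/
def OnTangent (p : ℝ → Fin 3 → ℝ) (s : ℝ) (q : Fin 3 → ℝ) : Prop :=
  (Matrix.of ![p s, deriv p s, q]).det = 0

/-- For every `t` there are `κ` and `ε > 0` such that for all `0 < c < ε`: if the forward point of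
the leaf `γ_c` on the tangent line at `p t` has the coordinate `x` and the backward point has the
coordinate `-y`, `0 < x, y < ε`, then `1 / x - 1 / y = κ`. -/
def ProjectiveInvolutions (p : ℝ → Fin 3 → ℝ) (ψ : ℝ → ℝ → ℝ) : Prop :=
  ∀ t : ℝ, ∃ κ ε : ℝ, 0 < ε ∧ ∀ c x y s : ℝ, 0 < c → c < ε → 0 < x → x < ε → 0 < y → y < ε →
    |s - t| < ε → ψ c s = t → OnTangent p (ψ c t) (p t + x • deriv p t) →
    OnTangent p s (p t - y • deriv p t) → 1 / x - 1 / y = κ

/-- If the tangent maps of the leaves commute and all the involutions of the tangent lines of `γ`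
are projective, then `γ` is an ellipse and the leaves are ellipses of one pencil. -/
theorem result (p : ℝ → Fin 3 → ℝ) (L : ℝ) (hL : 0 < L) (hsmooth : ContDiff ℝ ∞ p)
    (hper : ∀ t, p (t + L) = p t)
    (hcurved : ∀ t, (Matrix.of ![p t, deriv p t, deriv (deriv p) t]).det ≠ 0)
    (ψ : ℝ → ℝ → ℝ) (hψ : ContDiff ℝ ∞ (fun x : ℝ × ℝ => ψ x.1 x.2))
    (h0 : ∀ t, ψ 0 t = t) (h1 : ∀ t, 0 < deriv (fun c => ψ c t) 0)
    (hψper : ∀ c t, ψ c (t + L) = ψ c t + L)
    (hcomm : ∃ δ : ℝ, 0 < δ ∧ ∀ c d t, 0 ≤ c → c < δ → 0 ≤ d → d < δ →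
      ψ c (ψ d t) = ψ d (ψ c t))
    (hproj : ProjectiveInvolutions p ψ) :
    ∃ x y l : (Fin 3 → ℝ) →ₗ[ℝ] ℝ, LinearIndependent ℝ ![x, y, l] ∧
      (∀ t, l (p t) ≠ 0 ∧ x (p t) ^ 2 + y (p t) ^ 2 = l (p t) ^ 2) ∧
      ∃ k : ℝ → ℝ, ∃ η : ℝ, 0 < η ∧ ∀ c, 0 < c → c < η → 1 < k c ∧ ∀ t q, q ≠ 0 →
        OnTangent p t q → OnTangent p (ψ c t) q →
        l q ≠ 0 ∧ x q ^ 2 + y q ^ 2 = k c * l q ^ 2 := by
  obtain ⟨δ, hδ, hcomm⟩ := hcomm
  simp only [OnTangent, ProjectiveInvolutions, Pool.Agent.W5h40.Iso.D3_eq] at *
  exact Pool.Agent.W5h40.Iso.main hL hsmooth hper hcurved hψ h0 h1 hψper hδ hcomm hproj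

end Pool.Agent.Results.MP_ae5b4e_an.CommutingTangentMaps
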