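import Pool.Agent.W5h10.TL.Main

/-!
# MP_ae5b4e_an: first integrals which are rational functions of degree two on the tangent lines

Points of `ℝP²` are given by homogeneous coordinates, vectors of `ℝ³ = Fin 3 → ℝ`. The curve `γ` is
given by a smooth `L`-periodic map `p : ℝ → ℝ³` with `det (p, p', p'') ≠ 0` (a closed curve without
inflection points and cusps; every smooth closed strictly convex curve of nonzero curvature has such
a lift). The point of the tangent line at `p t` with the projective coordinate `x` is
`p t + x p' t`; near `γ` on its exterior side every point lies on exactly one forward half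
tangent line, that is, it is `p t + τ p' t` with a small `τ > 0`.

The foliation is given by a first integral whose restriction to every forward half tangent line
is a rational function of degree two with a double pole at the point of tangency, that is, a
polynomial of degree two in `1 / τ`: with smooth `L`-periodic functions `A > 0`, `B`, `C` the leaf
with the label `g` consists of the points `p t + τ p' t` with `A t / τ² + 2 B t / τ + C t = g`.
(On the backward half lines nothing is assumed.) Every pencil of conics with `γ` as a member and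
without base points on `γ` has this form, and also the leaves `{p t + τ p' t}`, `τ = const`, which
are the front tracks of bicycles with the rear track `γ` in the geometries of constant curvature.

`ProjectiveInvolutions` says that for every `t₀` the involution of the tangent line, which
exchanges the two points of each leaf near `p t₀`, is projective: in the projective coordinate `x`
with `x = 0` at the fixed point this means `1 / x - 1 / y = κ` for the points with the coordinates
`x` and `-y`.

Conclusion: in suitable linear coordinates `x, y, l` of `ℝ³` the curve `γ` lies on the ellipse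
`x² + y² = l²` and the leaf with the label `g` (near `γ`) lies on the ellipse
`(f g - a) x² + (f g - b) y² = (f g + c) l²` of the pencil spanned by `x² + y² - l²` and
`a x² + b y² + c l²`, with constants `a, b, c` and a strictly increasing function `f`.
-/

set_option autoImplicit false

open scoped ContDiff

namespace Pool.Agent.Results.MP_ae5b4e_an.QuadraticOnTangents

open Pool.Agent.W5h10.TL

/-- The leaf with the label `g` (its part with parameters at distance less than `ε` from `t₀` and
`0 < τ < ε`) passes through the point `p t₀ + x p' t₀` of the tangent line at `p t₀`, as a point of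
`ℝP²`. -/
def OnLeaf (p : ℝ → Fin 3 → ℝ) (A B C : ℝ → ℝ) (t₀ ε g x : ℝ) : Prop :=
  ∃ t τ r : ℝ, |t - t₀| < ε ∧ 0 < τ ∧ τ < ε ∧ 0 < r ∧ A t / τ ^ 2 + 2 * B t / τ + C t = g ∧
    p t + τ • deriv p t = r • (p t₀ + x • deriv p t₀)

/-- For every `t₀` there are `κ` and `ε > 0` such that any two points with the coordinates `x` and
`-y` on the tangent line at `p t₀`, `0 < x, y < ε`, which lie on one leaf, satisfy
`1 / x - 1 / y = κ`. -/
def ProjectiveInvolutions (p : ℝ → Fin 3 → ℝ) (A B C : ℝ → ℝ) : Prop :=
  ∀ t₀ : ℝ, ∃ κ ε : ℝ, 0 < ε ∧ ∀ g x y : ℝ, 0 < x → x < ε → 0 < y → y < ε →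
    OnLeaf p A B C t₀ ε g x → OnLeaf p A B C t₀ ε g (-y) → 1 / x - 1 / y = κ

/-- The unit circle with the concentric circles is an example (`A = 1`, `B = C = 0`). -/
theorem concentric : ProjectiveInvolutions (fun t => ![Real.cos t, Real.sin t, 1])
    (fun _ => 1) (fun _ => 0) (fun _ => 0) := by
  have hd : ∀ t, deriv (fun t : ℝ => (![Real.cos t, Real.sin t, 1] : Fin 3 → ℝ)) t =
      ![-Real.sin t, Real.cos t, 0] := by
    intro t
    refine HasDerivAt.deriv (hasDerivAt_pi.mpr fun i => ?_)
    fin_cases i
    · exact Real.hasDerivAt_cos t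
    · exact Real.hasDerivAt_sin t
    · exact hasDerivAt_const t 1
  have key : ∀ t₀ ε g x : ℝ, OnLeaf (fun t => ![Real.cos t, Real.sin t, 1])
      (fun _ => 1) (fun _ => 0) (fun _ => 0) t₀ ε g x → 1 / x ^ 2 = g := by
    rintro t₀ ε g x ⟨t, τ, r, -, -, -, -, hg, h⟩
    rw [hd, hd] at h
    have h0 := congrFun h 0
    have h1 := congrFun h 1
    have h2 := congrFun h 2
    simp at h0 h1 h2
    have c1 := Real.sin_sq_add_cos_sq t
    have c2 := Real.sin_sq_add_cos_sq t₀
    rw [← h2] at h0 h1
    have e : τ ^ 2 = x ^ 2 := by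
      linear_combination (Real.cos t + τ * -Real.sin t + (Real.cos t₀ + -(x * Real.sin t₀))) * h0 +
        (Real.sin t + τ * Real.cos t + (Real.sin t₀ + x * Real.cos t₀)) * h1 -
        (1 + τ ^ 2) * c1 + (1 + x ^ 2) * c2
    rw [← hg, e]
    ring
  intro t₀
  refine ⟨0, 1, one_pos, fun g x y hx _ hy _ h1 h2 => ?_⟩
  have e1 := key _ _ _ _ h1
  have e2 := key _ _ _ _ h2
  rw [← e2, neg_sq, one_div, one_div, inv_inj] at e1
  have : x = y := by
    rcases sq_eq_sq_iff_eq_or_eq_neg.1 e1 with h | h
    · exact h
    · linarith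
  rw [this, sub_self]

theorem det_eq (u v w : Fin 3 → ℝ) :
    (Matrix.of ![u, v, w]).det = Pool.Agent.W5h70.PG.det3 u v w := by
  rw [Matrix.det_fin_three]
  simp only [Matrix.of_apply, Matrix.cons_val_zero, Matrix.cons_val_one, Matrix.cons_val,
    Pool.Agent.W5h70.PG.det3]
  ring

/-- If a foliation of the exterior neighbourhood of a closed curve `γ` has a first integral which
restricts to every forward half tangent line as a polynomial of degree two in `1 / τ`, and all
involutions of the tangent lines of `γ` are projective, then `γ` is an ellipse and the leaves are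
ellipses of one pencil. -/
theorem result (p : ℝ → Fin 3 → ℝ) (A B C : ℝ → ℝ) (L : ℝ) (hL : 0 < L)
    (hp : ContDiff ℝ ∞ p) (hA : ContDiff ℝ ∞ A) (hB : ContDiff ℝ ∞ B) (hC : ContDiff ℝ ∞ C)
    (pp : ∀ t, p (t + L) = p t) (pA : ∀ t, A (t + L) = A t) (pB : ∀ t, B (t + L) = B t)
    (pC : ∀ t, C (t + L) = C t) (hA0 : ∀ t, 0 < A t)
    (hcurved : ∀ t, (Matrix.of ![p t, deriv p t, deriv (deriv p) t]).det ≠ 0)
    (hproj : ProjectiveInvolutions p A B C) :
    ∃ x y l : (Fin 3 → ℝ) →ₗ[ℝ] ℝ, LinearIndependent ℝ ![x, y, l] ∧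
      (∀ t, l (p t) ≠ 0 ∧ x (p t) ^ 2 + y (p t) ^ 2 = l (p t) ^ 2) ∧
      ∃ (a b c g₁ ε : ℝ) (f : ℝ → ℝ), 0 < ε ∧ StrictMonoOn f (Set.Ici g₁) ∧
        ∀ t τ g : ℝ, 0 < τ → τ < ε → A t / τ ^ 2 + 2 * B t / τ + C t = g →
          g₁ ≤ g ∧ a < f g ∧ b < f g ∧ -c < f g ∧ l (p t + τ • deriv p t) ≠ 0 ∧
          (f g - a) * x (p t + τ • deriv p t) ^ 2 + (f g - b) * y (p t + τ • deriv p t) ^ 2 =
            (f g + c) * l (p t + τ • deriv p t) ^ 2 := by
  have hP : PInv p A B C := by
    intro s
    obtain ⟨κ, ε, hε, H⟩ := hproj s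
    refine ⟨κ, ε, hε, fun t τ x y r h1 h2 h3 h4 h5 h6 h7 h8 h9 h10 => ?_⟩
    refine H (A t / τ ^ 2 + 2 * B t / τ + C t) x y h4 h5 h6 h7
      ⟨s, x, 1, ?_, h4, h5, one_pos, h10, (one_smul ℝ _).symm⟩ ⟨t, τ, r, h1, h2, h3, h8, rfl, ?_⟩
    · rw [sub_self, abs_zero]
      exact hε
    · rw [neg_smul, ← sub_eq_add_neg]
      exact h9
  have s1 : ContDiff ℝ ∞ (deriv p) := (contDiff_infty_iff_deriv.mp hp).2
  have s2 : ContDiff ℝ ∞ (deriv (deriv p)) := (contDiff_infty_iff_deriv.mp s1).2
  have hc := (Pool.Agent.W5h70.PG.det3_smooth hp s1 s2).continuous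
  have hne : ∀ t, Pool.Agent.W5h70.PG.det3 (p t) (deriv p t) (deriv (deriv p) t) ≠ 0 := fun t => by
    rw [← det_eq]
    exact hcurved t
  rcases sign_or hc hne with h | h
  · have H : Cu A p L 1 := ⟨hL, hp, hA, pp, pA, Or.inl rfl, fun t => by
      rw [one_mul]; exact h t, hA0⟩
    exact H.main hB hC pB pC hP
  · have H : Cu A p L (-1) := ⟨hL, hp, hA, pp, pA, Or.inr rfl, fun t => by
      have := h t
      linarith, hA0⟩
    exact H.main hB hC pB pC hP

end Pool.Agent.Results.MP_ae5b4e_an.QuadraticOnTangents
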